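import Pool.Agent.Helper59.SP.Closed

set_option autoImplicit false

/-!
Splaying against executions that move few keys, or that rotate small subtrees.

A timeline `t 0, t 1, …, t M` of search trees on the same keys; the event number `i` leads from
`t i` to `t (i + 1)` and is either a request of a key `x` (`q i = some x`, the tree does not change)
or one rotation anywhere in the tree (`q i = none`), at the edge between a node `p` and its child
`c` (`P i = {p, c}`), and then `S i` is the list of the keys of the rotated subtree (the subtree of
`t i` with root `p`). The request sequence `X` is the sequence of the requested keys. Splaying starts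
from any search tree `T` on the same keys.

For the request of `x` at the time `i` the price is the least of three numbers.
* `2 (a + 1) + 2 log₂ (1 + k)`: `k` is the number of different keys which take part in rotations
  after the time `i` and before the next request of `x`, and `a` is the number of the proper
  ancestors of `x` in `t i` which do not.
* `(d + 1) (3 + 2 log₂ (1 + s / (d + 1)))`: `d` is the depth of `x` in `t i`, and `s` the number of
  the rotations after the time `i` and before the next request of `x` whose rotated subtree
  contains `x`.
* `log₂ n`, with `n` the number of the keys.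
-/

namespace Pool.Agent.Results.MP_c42954_lc.MovedKeys

open Pool.Agent.H581R2.Splay Pool.Agent.Helper59.SP Finset

theorem result (M : ℕ) (t : ℕ → Tr) (q : ℕ → Option ℕ) (P : ℕ → Finset ℕ) (S : ℕ → List ℕ)
    (hb : IsBST (t 0)) (hE : ∀ i < M, Ev (t i) (t (i + 1)) (q i) (P i) (S i))
    (T : Tr) (hT : keys T = keys (t 0)) (n : ℕ) (hn : n = (keys T).length)
    (X : List ℕ) (hX : X = (List.range M).filterMap q) :
    (costSplay T X : ℝ) ≤
        ∑ i ∈ range M, (q i).elim 0 (fun x => 8 + 3 * price (una (moved q P M i) x (t i))
          (moved q P M i).card (dep x (t i)) (touched q S M i x) n) + 4 * n * Real.logb 2 n ∧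
    (costSplay T X : ℝ) ≤
        14 * accessCost t q M +
          6 * X.length * Real.logb 2 (1 + movedTotal q P M / X.length) + 4 * n * Real.logb 2 n ∧
    (costSplay T X : ℝ) ≤
        14 * accessCost t q M +
          6 * X.length * Real.logb 2 (1 + 2 * n * rotations q M / X.length) +
          4 * n * Real.logb 2 n ∧
    (costSplay T X : ℝ) ≤
        17 * accessCost t q M +
          6 * accessCost t q M * Real.logb 2 (1 + volume S M / accessCost t q M) +
          4 * n * Real.logb 2 n ∧
    (costSplay T X : ℝ) ≤
        (17 + 6 * Real.logb 2 (1 + volume S M / rotations q M)) *
          (accessCost t q M + rotations q M) + 4 * n * Real.logb 2 n := by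
  subst hX
  have hn' : (keys (t 0)).length = n := by rw [hn, hT]
  exact ⟨main hb hE hn' hT, closedB hb hE hn' hT, closedR hb hE hn' hT, closedC hb hE hn' hT,
    closedV hb hE hn' hT⟩

end Pool.Agent.Results.MP_c42954_lc.MovedKeys
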