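import Pool.Agent.Helper86.Spl.Law

set_option autoImplicit false

/-!
# A zero-one law for the exceptions to the dynamic optimality of splaying

`Tr`, `keys`, `IsBST`, `splay`, `costSplay` are those of `Pool.Graph.R_seed8.H581R2.SplayDef`;
`opt T X` is the least cost of an execution for the requests `X` with initial tree `T` (a request
costs one plus the depth of the key, a rotation anywhere in the tree costs one). `DynOpt` is Q1.

`Bad c T` is the set of the request sequences on which splaying costs more than `c` times the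
optimum; `OptLe T b`, `CostLe T b`, `Len T m` are the sets of the request sequences (of keys of `T`)
with optimal cost at most `b`, with splay cost at most `b`, and with length `m`.

(1) If Q1 fails, then for every `c` and `q`, every large enough tree `T` and all large `b`
  - at least `a ^ (q / (q + 1))` of the `a` sequences of optimal cost at most `b`,
  - at least `2 ^ (q b)` of the sequences of length `b`,
  - at least `2 ^ (b / (8 (c + 1)))` of the sequences of splay cost at most `b`
are in `Bad c T`.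

(2) Unconditionally there are at least `2 ^ (b / 2)` and at most `(b + 1) 2 ^ (10 b + 2)` sequences of
optimal cost at most `b`, and at most `(b / c + 1) 2 ^ (10 b / c + 2)` of the sequences of splay
cost at most `b` are in `Bad c T`.

(3) Hence Q1 is equivalent to each of the three statements that for some `c` (and `q`), for one tree of
each of infinitely many sizes and infinitely many `b`, there are fewer exceptions than in (1).

Proof. If Q1 fails, then for every constant `c'` every large tree has a request sequence `Z` for which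
splaying returns to the initial tree `T`, there is an execution of cost `D` returning to `T`, and
splaying costs more than `c' D` (library, `AdditiveTerms`). If `c'` is large compared with `c` and `q`,
then `Z` can be repeated `k` times at a cost of a small part of `b` for the optimum, so that the
sequence is in `Bad c T` whatever follows: all sequences of optimal cost at most `(1 - ε) b` can be
appended. The numbers `a(b)` of the sequences of optimal cost at most `b` are submultiplicative
up to constants, and the Kraft inequality (library, `RandomRequests`) gives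
`a(b) ≤ a((1 - ε) b) ^ (1 + 1 / q)`.
-/

namespace Pool.Agent.Results.MP_c42954_lc.ZeroOneLaw

open Pool.Agent.H581R2.Splay Pool.Agent.TH49.Spl Pool.Agent.Y395.SP Pool.Agent.R531.Spl
open Pool.Agent.Helper86.Spl

theorem result :
    -- (1) if Q1 fails
    (¬ DynOpt → ∀ c q : ℕ, ∃ N : ℕ, ∀ T : Tr, IsBST T → N ≤ (keys T).length →
      ∃ M : ℕ, ∀ b, M ≤ b →
        (OptLe T b).ncard ^ q ≤ (OptLe T b ∩ Bad c T).ncard ^ (q + 1) ∧
        2 ^ (q * b) ≤ (Len T b ∩ Bad c T).ncard ∧
        2 ^ (b / (8 * (c + 1))) ≤ (CostLe T b ∩ Bad c T).ncard) ∧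
    -- (2) unconditional bounds
    (∀ T : Tr, IsBST T → ∀ b : ℕ,
      (OptLe T b).ncard ≤ (b + 1) * 2 ^ (10 * b + 2) ∧
      (2 ≤ (keys T).length → 2 ^ (b / 2) ≤ (OptLe T b).ncard) ∧
      ∀ c : ℕ, 1 ≤ c → (CostLe T b ∩ Bad c T).ncard ≤ (b / c + 1) * 2 ^ (10 * (b / c) + 2)) ∧
    -- (3) equivalent forms of Q1
    List.TFAE [DynOpt,
      ∃ c q : ℕ, ∀ N : ℕ, ∃ T : Tr, IsBST T ∧ N ≤ (keys T).length ∧ ∀ M : ℕ, ∃ b, M ≤ b ∧
        (OptLe T b ∩ Bad c T).ncard ^ (q + 1) < (OptLe T b).ncard ^ q,
      ∃ c q : ℕ, ∀ N : ℕ, ∃ T : Tr, IsBST T ∧ N ≤ (keys T).length ∧ ∀ M : ℕ, ∃ m, M ≤ m ∧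
        (Len T m ∩ Bad c T).ncard < 2 ^ (q * m),
      ∃ c : ℕ, ∀ N : ℕ, ∃ T : Tr, IsBST T ∧ N ≤ (keys T).length ∧ ∀ M : ℕ, ∃ b, M ≤ b ∧
        (CostLe T b ∩ Bad c T).ncard < 2 ^ (b / (8 * (c + 1)))] := by
  refine ⟨fun h c q => ?_, fun T hb b => ⟨optLe_card_le hb b, fun h2 => optLe_card_ge hb h2 b,
    fun c hc => upper hb hc b⟩, ?_⟩
  · obtain ⟨N₁, h1⟩ := law_opt h c q
    obtain ⟨N₂, h2⟩ := law_len h c q
    obtain ⟨N₃, h3⟩ := law_cost h c
    refine ⟨N₁ + N₂ + N₃, fun T hb hT => ?_⟩
    obtain ⟨M₁, i1⟩ := h1 T hb (by omega)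
    obtain ⟨M₂, i2⟩ := h2 T hb (by omega)
    obtain ⟨M₃, i3⟩ := h3 T hb (by omega)
    exact ⟨M₁ + M₂ + M₃, fun b hbM => ⟨i1 b (by omega), i2 b (by omega), i3 b (by omega)⟩⟩
  · tfae_have 1 → 2 := by
      rintro ⟨c, h⟩
      refine ⟨c, 1, fun N => ?_⟩
      obtain ⟨T, hb, hN⟩ := range_tree N
      refine ⟨T, hb, hN, fun M => ⟨M, le_rfl, ?_⟩⟩
      rw [bad_empty h hb (fun X hX => hX.1)]
      exact Nat.pow_pos (optLe_pos T M)
    tfae_have 1 → 3 := by
      rintro ⟨c, h⟩
      refine ⟨c, 1, fun N => ?_⟩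
      obtain ⟨T, hb, hN⟩ := range_tree N
      refine ⟨T, hb, hN, fun M => ⟨M, le_rfl, ?_⟩⟩
      rw [bad_empty h hb (fun X hX => hX.1)]
      positivity
    tfae_have 1 → 4 := by
      rintro ⟨c, h⟩
      refine ⟨c, fun N => ?_⟩
      obtain ⟨T, hb, hN⟩ := range_tree N
      refine ⟨T, hb, hN, fun M => ⟨M, le_rfl, ?_⟩⟩
      rw [bad_empty h hb (fun X hX => hX.1)]
      positivity
    tfae_have 2 → 1 := by
      rintro ⟨c, q, h⟩
      by_contra hcon
      obtain ⟨N, h1⟩ := law_opt hcon c q
      obtain ⟨T, hb, hN, h2⟩ := h N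
      obtain ⟨M, h3⟩ := h1 T hb hN
      obtain ⟨b, hbM, h4⟩ := h2 M
      exact absurd (h3 b hbM) (not_le.2 h4)
    tfae_have 3 → 1 := by
      rintro ⟨c, q, h⟩
      by_contra hcon
      obtain ⟨N, h1⟩ := law_len hcon c q
      obtain ⟨T, hb, hN, h2⟩ := h N
      obtain ⟨M, h3⟩ := h1 T hb hN
      obtain ⟨b, hbM, h4⟩ := h2 M
      exact absurd (h3 b hbM) (not_le.2 h4)
    tfae_have 4 → 1 := by
      rintro ⟨c, h⟩
      by_contra hcon
      obtain ⟨N, h1⟩ := law_cost hcon c
      obtain ⟨T, hb, hN, h2⟩ := h N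
      obtain ⟨M, h3⟩ := h1 T hb hN
      obtain ⟨b, hbM, h4⟩ := h2 M
      exact absurd (h3 b hbM) (not_le.2 h4)
    tfae_finish

end Pool.Agent.Results.MP_c42954_lc.ZeroOneLaw
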